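import Pool.Agent.W900.CH.EFar
import Pool.Agent.W900.CH.Thin
import Pool.Agent.Results.MP_a54059_lc.GaugeThreshold

/-!
# How many strings of a random oracle have to be changed to make `E` and `ESPACE` equal?

The number of changes is measured by a function `g`: the oracle `A` is obtained from `O` by changing,
for all large `n`, at most `g n` of the strings of length at most `n`. If for every `ε > 0` there are
infinitely many `n` with `g n ≤ n ^ ε`, then `E^A ≠ ESPACE^A` (even `NE^A ⊄ E^A`) for almost every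
oracle `O` and all oracles `A` that are obtained from `O` by at most `g` changes, wherever these
changes are made (an adversary who knows the whole oracle chooses the positions). Otherwise every
oracle `O` can be changed, by at most `g` changes, into an oracle `A` with `E^A = ESPACE^A`, and for
almost every oracle `O` one can have in addition `PP^A ⊄ PH^A`, so `PH^A ≠ PSPACE^A`.

So the threshold is exactly at the functions `n ^ ε`.
-/

set_option autoImplicit false

namespace Pool.Agent.Results.MP_d67941_lc.ChangedStrings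

open Pool.Agent.NPC Pool.Agent.H620R2.Gauge Pool.Agent.H622R2.Exp Pool.Agent.W900.CH
open Pool.Agent.H943R3.PP
open Pool.Agent.H628R3.RO (randomOracle)
open MeasureTheory Filter

theorem result (g : ℕ → ℝ) :
    ((∀ ε : ℝ, 0 < ε → ∃ᶠ n : ℕ in atTop, g n ≤ (n : ℝ) ^ ε) →
      ∀ᵐ O ∂randomOracle, ∀ A : Oracle, Close g O A →
        (∃ L, InSpace Lin A L ∧ ¬ InTime Lin A L) ∧ ∃ L, InNTime Lin A L ∧ ¬ InTime Lin A L) ∧
    ((¬ ∀ ε : ℝ, 0 < ε → ∃ᶠ n : ℕ in atTop, g n ≤ (n : ℝ) ^ ε) →
      (∀ O : Oracle, ∃ A : Oracle, Close g O A ∧ ∀ L, InTime Lin A L ↔ InSpace Lin A L) ∧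
      ∀ᵐ O ∂randomOracle, ∃ A : Oracle, Close g O A ∧ (∀ L, InTime Lin A L ↔ InSpace Lin A L) ∧
        ∃ L, IsPP A L ∧ ¬ IsPH A L) := by
  refine ⟨fun hg => ?_, fun hg => ?_⟩
  · filter_upwards [ae_far_E hg] with O hO A hA
    exact ⟨⟨hit2 A, (hit2_ntime good_Lin A).isSpace good_Lin, hO A hA⟩,
      hit2 A, hit2_ntime good_Lin A, hO A hA⟩
  · push Not at hg
    obtain ⟨ε, hε, hg⟩ := hg
    obtain ⟨Z, hZ, h⟩ := exists_thin_E hε
    have hc : ∀ O A : Oracle, (∀ y ∉ Z, A y = O y) → Close g O A := by
      intro O A hA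
      refine close_of_thin ?_ hA
      filter_upwards [hZ, hg] with n h1 h2
      exact h1.trans h2.le
    have hE : ∀ A : Oracle, (∀ L, InSpace Lin A L → InTime Lin A L) →
        ∀ L, InTime Lin A L ↔ InSpace Lin A L :=
      fun A hA L => ⟨fun h => h.isNTime.isSpace good_Lin, fun h => hA L h⟩
    refine ⟨fun O => ?_, ?_⟩
    · obtain ⟨A, h1, h2⟩ := h O
      exact ⟨A, hc O A h1, hE A h2⟩
    · have h3 := ae_far_P (fun f hf => (MP_a54059_lc.GaugeThreshold.result f).2.1.2 hf)
        (cond_of_pow hε (Eventually.of_forall fun n => le_refl ((n : ℝ) ^ ε)))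
      filter_upwards [h3] with O hO
      obtain ⟨A, h1, h2⟩ := h O
      refine ⟨A, hc O A h1, hE A h2, ?_⟩
      have h4 := hO A (close_of_thin hZ h1)
      by_contra h5
      push Not at h5
      exact h4 h5

end Pool.Agent.Results.MP_d67941_lc.ChangedStrings
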