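import Pool.Agent.H529R3.Gap.Main
import Pool.Agent.H620R2.Gauge2.V7

/-!
# How many oracles make `E` and `ESPACE` equal?

For every gauge `f`, the set of the oracles `A` with `E^A = ESPACE^A` is a null set for `f` if and
only if for every `ε > 0` there are infinitely many `N` with `f N ≤ (log N) ^ ε`. The same holds
for the set of the oracles with `E^A = ESPACE^A` and `PH^A ≠ PSPACE^A`, and for every set of
oracles between the set of the `A` with `E^A = ESPACE^A` and `PSPACE^A ⊄ PH^A/poly` and the set of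
the `A` with `E^A = NE^A`.

The proof is in modules of helpers 529, 620, 622 and others.
-/

set_option autoImplicit false

namespace Pool.Agent.Results.MP_d67941_lc.GaugeThreshold

open Pool.Agent.NPC Pool.Agent.H620R2.Gauge Pool.Agent.H622R2.Exp

theorem result (f : ℕ → ℝ) :
    (∀ O : Set Oracle,
      (∀ A : Oracle, (∀ L, InSpace Lin A L → InTime Lin A L) →
        (∃ L, IsPSPACE A L ∧ ¬ IsPHpoly A L) → A ∈ O) →
      (∀ A ∈ O, ∀ L, InNTime Lin A L → InTime Lin A L) →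
      (Null f O ↔ ∀ ε : ℝ, 0 < ε → ∃ᶠ N : ℕ in Filter.atTop, f N ≤ (Real.logb 2 N) ^ ε)) ∧
    (Null f {A : Oracle | ∀ L, InTime Lin A L ↔ InSpace Lin A L} ↔
      ∀ ε : ℝ, 0 < ε → ∃ᶠ N : ℕ in Filter.atTop, f N ≤ (Real.logb 2 N) ^ ε) ∧
    (Null f {A : Oracle | (∀ L, InTime Lin A L ↔ InSpace Lin A L) ∧
        ¬ ∀ L, IsPH A L ↔ IsPSPACE A L} ↔
      ∀ ε : ℝ, 0 < ε → ∃ᶠ N : ℕ in Filter.atTop, f N ≤ (Real.logb 2 N) ^ ε) := by
  refine ⟨fun O => H529R3.Gap.gap_below f O, H529R3.Gap.gap_below f _ ?_ ?_,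
    H529R3.Gap.gap_below f _ ?_ ?_⟩
  · intro A hA _ L
    exact ⟨fun h => h.isNTime.isSpace good_Lin, fun h => hA L h⟩
  · intro A hA L hL
    exact (hA L).2 (hL.isSpace good_Lin)
  · rintro A hA ⟨L₀, hL₀, hL₀'⟩
    exact ⟨fun L => ⟨fun h => h.isNTime.isSpace good_Lin, fun h => hA L h⟩,
      fun h => hL₀' ((h L₀).2 hL₀).isPHpoly⟩
  · intro A hA L hL
    exact (hA.1 L).2 (hL.isSpace good_Lin)

end Pool.Agent.Results.MP_d67941_lc.GaugeThreshold
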